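import Pool.Agent.helper13.UN.Spec

/-! # un:CLS, representatives of the ideal classes prime to a given ideal -/

set_option autoImplicit false

open NumberField Complex

namespace Pool.Agent.UN

open scoped nonZeroDivisors

theorem CLS_one (K : Type) [Field K] [NumberField K] (f : Ideal (𝓞 K)) (hf : f ≠ ⊥) (c : ClassGroup (𝓞 K)) :
    ∃ J : Ideal (𝓞 K), (∃ h : J ≠ ⊥, ClassGroup.mk0 ⟨J, mem_nonZeroDivisors_iff_ne_zero.2 h⟩ = c) ∧ J ⊔ f = ⊤ := by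
  by_cases hft : f = ⊤
  · obtain ⟨⟨J, hJ⟩, hc⟩ := ClassGroup.mk0_surjective c
    exact ⟨J, ⟨mem_nonZeroDivisors_iff_ne_zero.1 hJ, hc⟩, by rw [hft, sup_top_eq]⟩
  · obtain ⟨⟨I, hI⟩, hc⟩ := ClassGroup.mk0_surjective c⁻¹
    have hI0 : I ≠ 0 := mem_nonZeroDivisors_iff_ne_zero.1 hI
    obtain ⟨a, ha⟩ := IsDedekindDomain.exists_sup_span_eq (Ideal.mul_le_left : I * f ≤ I) (mul_ne_zero hI0 hf)
    have h1 : Ideal.span {a} ≤ I := le_sup_right.trans ha.le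
    obtain ⟨J, hJ⟩ := Ideal.dvd_iff_le.2 h1
    rw [hJ, ← Ideal.mul_sup] at ha
    have h2 : f ⊔ J = ⊤ := by
      have h3 : I * (f ⊔ J) = I * ⊤ := by rw [ha, Ideal.mul_top]
      exact mul_left_cancel₀ hI0 h3
    have hJ0 : J ≠ ⊥ := by
      intro h
      rw [h, sup_bot_eq] at h2
      exact hft h2
    refine ⟨J, ⟨hJ0, ?_⟩, by rw [sup_comm]; exact h2⟩
    have h4 : ClassGroup.mk0 (⟨I, hI⟩ * ⟨J, mem_nonZeroDivisors_iff_ne_zero.2 hJ0⟩ : (Ideal (𝓞 K))⁰) = 1 := by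
      have h5 : (⟨I, hI⟩ * ⟨J, mem_nonZeroDivisors_iff_ne_zero.2 hJ0⟩ : (Ideal (𝓞 K))⁰) = ⟨I * J, mul_mem hI (mem_nonZeroDivisors_iff_ne_zero.2 hJ0)⟩ := rfl
      rw [h5, ClassGroup.mk0_eq_one_iff, ← hJ]
      exact ⟨⟨a, rfl⟩⟩
    rw [map_mul, hc] at h4
    exact (inv_mul_eq_one.1 h4).symm

theorem CLS : CLS_stmt := by
  intro K _ _ f hf
  choose b hb1 hb2 using CLS_one K f hf
  exact ⟨b, hb1, hb2⟩

end Pool.Agent.UN
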